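import Mathlib
import Pool.Agent.Helper929.Final

set_option autoImplicit false

namespace Pool.Agent.Results.MP_7dfbfb_co.TwoAdic

/-- The point `b` of the lattice is obtained from `a` by adding `(0,1)`, `(1,0)` or `(1,1)`. -/
def Step (a b : ℕ × ℕ) : Prop :=
  b = (a.1, a.2 + 1) ∨ b = (a.1 + 1, a.2) ∨ b = (a.1 + 1, a.2 + 1)

/-- The triangle graph `T_n`: its vertices are the pairs `(i, j)` with `0 ≤ j ≤ i ≤ n - 1`, and two
vertices are adjacent when they differ by one of `(0,1)`, `(1,0)`, `(1,1)`. -/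
def triangleGraph (n : ℕ) : SimpleGraph {x : ℕ × ℕ // x.2 ≤ x.1 ∧ x.1 < n} where
  Adj x y := Step x.1 y.1 ∨ Step y.1 x.1
  symm := ⟨fun _ _ h => h.symm⟩
  loopless := ⟨fun x h => by
    rcases h with h | h <;> rcases h with h | h | h <;>
      simp [Prod.ext_iff] at h⟩

/-- `M(n)`, the number of perfect matchings of `T_n`. -/
noncomputable def numMatchings (n : ℕ) : ℕ :=
  Nat.card {M : (triangleGraph n).Subgraph // M.IsPerfectMatching}

/-- For all `n ≥ 3` congruent to `0` or `3` modulo `4`, the number of perfect matchings of the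
triangle graph of order `n` is not zero, and the exponent of the largest power of `2` dividing it
is `⌊(n + 1) / 4⌋`. -/
theorem result (n : ℕ) (hn : 3 ≤ n) (h : n % 4 = 0 ∨ n % 4 = 3) :
    numMatchings n ≠ 0 ∧ padicValNat 2 (numMatchings n) = (n + 1) / 4 :=
  Pool.Agent.Helper929.main ((n + 1) / 4) (by omega) n (by omega)

end Pool.Agent.Results.MP_7dfbfb_co.TwoAdic
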